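import Mathlib
import Pool.Agent.W23.PL.Defs
import Pool.Agent.H373R2.T7.Fund
import Pool.Agent.Helper256.KM.E1

/-! Project CP, package UBS: an upper bound sieve. -/

set_option autoImplicit false

namespace Pool.Agent.U502.PL

open Finset Pool.Agent.H442R2 Pool.Agent.H442R2.KF Pool.Agent.W23.DC Pool.Agent.W23.PL
open Pool.Agent.H373R2.T7 (pz Vz mem_pz nuB PerB sys_fund)

/-- the sieve condition -/
def ubsQ (P : Finset ℕ) (m r : ℕ) (q : ℤ) (l n : ℕ) : Prop :=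
  ((r : ZMod l) + m * ((n : ZMod l) - 1) = 0) ∨ (l ∈ P ∧ (m : ZMod l) * ((n : ZMod l) - 1 - (q : ZMod l)) = 0)

theorem ubs_per (P : Finset ℕ) (m r : ℕ) (q : ℤ) (l n : ℕ) : ubsQ P m r q l n ↔ ubsQ P m r q l (n % l) := by
  unfold ubsQ
  rw [ZMod.natCast_mod]

theorem ubs_cop {m r : ℕ} (hmr : Nat.Coprime r m) {l : ℕ} (hl : l.Prime) (hlm : l ∣ m) : ¬ l ∣ r := by
  intro h
  have := Nat.dvd_gcd h hlm
  rw [hmr] at this
  exact hl.one_lt.ne' (Nat.dvd_one.1 this)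

section

variable {P : Finset ℕ} {m r : ℕ} {q : ℤ} {l : ℕ}

theorem ubs_z1 (hl : l.Prime) (hlm : ¬ l ∣ m) (x : ZMod l) :
    (r : ZMod l) + m * (x - 1) = 0 ↔ x = 1 - r * (m : ZMod l)⁻¹ := by
  have := Fact.mk hl
  have hm : (m : ZMod l) ≠ 0 := by
    rw [Ne, ZMod.natCast_eq_zero_iff]
    exact hlm
  constructor
  · intro h
    have h1 : (m : ZMod l) * (x - 1) = - r := by linear_combination h
    have h2 : x - 1 = - r * (m : ZMod l)⁻¹ := by
      rw [← h1]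
      field_simp
    linear_combination h2
  · rintro rfl
    field_simp
    ring

theorem ubs_z2 (hl : l.Prime) (hlm : ¬ l ∣ m) (x : ZMod l) :
    (m : ZMod l) * (x - 1 - (q : ZMod l)) = 0 ↔ x = 1 + (q : ZMod l) := by
  have := Fact.mk hl
  have hm : (m : ZMod l) ≠ 0 := by
    rw [Ne, ZMod.natCast_eq_zero_iff]
    exact hlm
  rw [mul_eq_zero, or_iff_right hm]
  constructor
  · intro h
    linear_combination h
  · rintro rfl
    ring

theorem ubs_few (hmr : Nat.Coprime r m) (hP : ∀ l ∈ P, ¬ l ∣ m) (hl : l.Prime) : nuB (ubsQ P m r q) l ≤ 2 := by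
  classical
  have := Fact.mk hl
  unfold nuB
  by_cases hlm : l ∣ m
  · have : (range l).filter (fun n => ubsQ P m r q l n) = ∅ := by
      rw [filter_eq_empty_iff]
      intro n _ h
      have hm : (m : ZMod l) = 0 := (ZMod.natCast_eq_zero_iff _ _).2 hlm
      rcases h with h | ⟨h, _⟩
      · rw [hm, zero_mul, add_zero, ZMod.natCast_eq_zero_iff] at h
        exact ubs_cop hmr hl hlm h
      · exact hP l h hlm
    rw [this]
    simp
  · have : (range l).filter (fun n => ubsQ P m r q l n) ⊆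
        {(1 - (r : ZMod l) * (m : ZMod l)⁻¹).val, (1 + (q : ZMod l)).val} := by
      intro n hn
      rw [mem_filter, mem_range] at hn
      obtain ⟨hn1, hn2⟩ := hn
      rw [mem_insert, mem_singleton]
      rcases hn2 with h | ⟨_, h⟩
      · left
        rw [← (ubs_z1 hl hlm _).1 h, ZMod.val_natCast_of_lt hn1]
      · right
        rw [← (ubs_z2 hl hlm _).1 h, ZMod.val_natCast_of_lt hn1]
    exact (card_le_card this).trans card_le_two

theorem ubs_perB (hmr : Nat.Coprime r m) (hP : ∀ l ∈ P, ¬ l ∣ m) : PerB (ubsQ P m r q) 2 :=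
  ⟨fun l n => ubs_per P m r q l n, fun _ hl => ubs_few hmr hP hl⟩

theorem ubs_one (hl : l.Prime) (hlm : ¬ l ∣ m) : 1 ≤ nuB (ubsQ P m r q) l := by
  classical
  have := Fact.mk hl
  unfold nuB
  rw [Nat.one_le_iff_ne_zero, ← Nat.pos_iff_ne_zero, card_pos]
  refine ⟨(1 - (r : ZMod l) * (m : ZMod l)⁻¹).val, ?_⟩
  rw [mem_filter, mem_range]
  refine ⟨ZMod.val_lt _, Or.inl ?_⟩
  rw [ubs_z1 hl hlm, ZMod.natCast_zmod_val]

theorem ubs_two (hl : l.Prime) (hlm : ¬ l ∣ m) (hlP : l ∈ P) (ha : ¬ (l : ℤ) ∣ (r : ℤ) + m * q) :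
    2 ≤ nuB (ubsQ P m r q) l := by
  classical
  have := Fact.mk hl
  have hm : (m : ZMod l) ≠ 0 := by
    rw [Ne, ZMod.natCast_eq_zero_iff]
    exact hlm
  have hne : (1 - (r : ZMod l) * (m : ZMod l)⁻¹) ≠ 1 + (q : ZMod l) := by
    intro h
    apply ha
    rw [← ZMod.intCast_zmod_eq_zero_iff_dvd]
    push_cast
    have h1 : (q : ZMod l) = - ((r : ZMod l) * (m : ZMod l)⁻¹) := by linear_combination -h
    rw [h1]
    field_simp
    ring
  unfold nuB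
  have : ({(1 - (r : ZMod l) * (m : ZMod l)⁻¹).val, (1 + (q : ZMod l)).val} : Finset ℕ) ⊆
      (range l).filter (fun n => ubsQ P m r q l n) := by
    intro n hn
    rw [mem_insert, mem_singleton] at hn
    rw [mem_filter, mem_range]
    rcases hn with rfl | rfl
    · refine ⟨ZMod.val_lt _, Or.inl ?_⟩
      rw [ubs_z1 hl hlm, ZMod.natCast_zmod_val]
    · refine ⟨ZMod.val_lt _, Or.inr ⟨hlP, ?_⟩⟩
      rw [ubs_z2 hl hlm, ZMod.natCast_zmod_val]
  refine le_trans ?_ (card_le_card this)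
  rw [card_pair]
  exact fun h => hne (ZMod.val_injective l h)

end

/-- a product over a larger set of factors between zero and one is smaller -/
theorem ubs_prod_mono {S T : Finset ℕ} {f : ℕ → ℝ} (h : S ⊆ T) (h0 : ∀ p ∈ T, 0 ≤ f p) (h1 : ∀ p ∈ T, f p ≤ 1) :
    ∏ p ∈ T, f p ≤ ∏ p ∈ S, f p := by
  classical
  rw [← prod_sdiff h]
  have h2 : ∏ p ∈ T \ S, f p ≤ 1 :=
    prod_le_one (fun p hp => h0 p (mem_sdiff.1 hp).1) (fun p hp => h1 p (mem_sdiff.1 hp).1)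
  have h3 : 0 ≤ ∏ p ∈ S, f p := prod_nonneg fun p hp => h0 p (h hp)
  nlinarith

theorem ubs_fac {l : ℕ} (hl : l.Prime) : 0 < 1 - 1 / (l : ℝ) ∧ 1 - 1 / (l : ℝ) ≤ 1 := by
  have h2 : (2 : ℝ) ≤ l := by exact_mod_cast hl.two_le
  have h0 : (0 : ℝ) < l := by linarith
  constructor
  · have : 1 / (l : ℝ) ≤ 1 / 2 := one_div_le_one_div_of_le (by norm_num) h2
    linarith
  · have : 0 ≤ 1 / (l : ℝ) := by positivity
    linarith

open Classical in
theorem ubs_term {P : Finset ℕ} {m r : ℕ} {q : ℤ} {l : ℕ} (hP : ∀ l ∈ P, ¬ l ∣ m) (hl : l.Prime) :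
    1 - (nuB (ubsQ P m r q) l : ℝ) / l ≤ (1 - 1 / (l : ℝ)) * (if l ∣ m then (1 - 1 / (l : ℝ))⁻¹ else 1) *
      (if l ∈ P then (1 - 1 / (l : ℝ)) else 1) *
      (if l ∈ P ∧ (l : ℤ) ∣ (r : ℤ) + m * q then (1 - 1 / (l : ℝ))⁻¹ else 1) := by
  obtain ⟨h0, h1⟩ := ubs_fac hl
  have hl0 : (0 : ℝ) < l := by exact_mod_cast hl.pos
  have hl2 : (2 : ℝ) ≤ l := by exact_mod_cast hl.two_le
  have hνn : (0 : ℝ) ≤ (nuB (ubsQ P m r q) l : ℝ) / l := by positivity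
  by_cases hlm : l ∣ m
  · have hlP : l ∉ P := fun h => hP l h hlm
    rw [if_pos hlm, if_neg hlP, if_neg (fun h => hlP h.1), mul_one, mul_one, mul_inv_cancel₀ h0.ne']
    linarith
  · have hν1 : (1 : ℝ) ≤ nuB (ubsQ P m r q) l := by exact_mod_cast ubs_one hl hlm
    have hν1' : 1 / (l : ℝ) ≤ (nuB (ubsQ P m r q) l : ℝ) / l := div_le_div_of_nonneg_right hν1 hl0.le
    by_cases hlP : l ∈ P
    · by_cases ha : (l : ℤ) ∣ (r : ℤ) + m * q
      · rw [if_neg hlm, if_pos hlP, if_pos ⟨hlP, ha⟩, mul_one, mul_assoc, mul_inv_cancel₀ h0.ne', mul_one]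
        linarith
      · rw [if_neg hlm, if_pos hlP, if_neg (fun h => ha h.2), mul_one, mul_one]
        have hν2 : (2 : ℝ) ≤ nuB (ubsQ P m r q) l := by exact_mod_cast ubs_two hl hlm hlP ha
        have hν2' : 2 / (l : ℝ) ≤ (nuB (ubsQ P m r q) l : ℝ) / l := div_le_div_of_nonneg_right hν2 hl0.le
        have : (1 - 1 / (l : ℝ)) * (1 - 1 / (l : ℝ)) = 1 - 2 / l + (1 / (l : ℝ)) ^ 2 := by ring
        rw [this]
        have : 0 ≤ (1 / (l : ℝ)) ^ 2 := by positivity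
        linarith
    · rw [if_neg hlm, if_neg hlP, if_neg (fun h => hlP h.1), mul_one, mul_one, mul_one]
      linarith

theorem ubs_tot (m : ℕ) (hm : 1 ≤ m) : ∏ l ∈ m.primeFactors, (1 - 1 / (l : ℝ))⁻¹ = m / Nat.totient m := by
  have h := Nat.totient_eq_mul_prod_factors m
  have h' : (Nat.totient m : ℝ) = m * ∏ l ∈ m.primeFactors, (1 - 1 / (l : ℝ)) := by
    have := congrArg (fun x : ℚ => (x : ℝ)) h
    push_cast at this
    simpa [one_div] using this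
  have hm0 : (0 : ℝ) < m := by exact_mod_cast hm
  have hp : 0 < ∏ l ∈ m.primeFactors, (1 - 1 / (l : ℝ)) :=
    prod_pos fun l hl => (ubs_fac (Nat.prime_of_mem_primeFactors hl)).1
  rw [prod_inv_distrib, h']
  field_simp

open Classical in
theorem ubs_prod {P : Finset ℕ} {m r : ℕ} {q : ℤ} (hm : 1 ≤ m) (hP : ∀ l ∈ P, ¬ l ∣ m) (Y : ℕ) :
    ∏ l ∈ pz Y, (1 - (nuB (ubsQ P m r q) l : ℝ) / l) ≤ Vz Y * (m / Nat.totient m) *
      (∏ l ∈ (pz Y).filter (fun l => l ∈ P), (1 - 1 / (l : ℝ))) *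
      (∏ l ∈ (pz Y).filter (fun l => l ∈ P ∧ (l : ℤ) ∣ (r : ℤ) + m * q), (1 - 1 / (l : ℝ))⁻¹) := by
  have hν : ∀ l ∈ pz Y, 0 ≤ 1 - (nuB (ubsQ P m r q) l : ℝ) / l := by
    intro l hl
    have hl0 : (0 : ℝ) < l := by exact_mod_cast (mem_pz.1 hl).2.pos
    have : (nuB (ubsQ P m r q) l : ℝ) / l ≤ 1 := by
      rw [div_le_one hl0]
      exact_mod_cast Pool.Agent.H373R2.T7.nuB_le _ _
    linarith
  have h1 := prod_le_prod hν (fun l hl => ubs_term (r := r) (q := q) hP (mem_pz.1 hl).2)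
  refine h1.trans ?_
  rw [prod_mul_distrib, prod_mul_distrib, prod_mul_distrib]
  have e1 : ∏ l ∈ pz Y, (1 - 1 / (l : ℝ)) = Vz Y := rfl
  rw [e1, ← prod_filter, ← prod_filter, ← prod_filter]
  have h2 : ∏ l ∈ (pz Y).filter (fun l => l ∣ m), (1 - 1 / (l : ℝ))⁻¹ ≤ m / Nat.totient m := by
    rw [← ubs_tot m hm]
    have hsub : (pz Y).filter (fun l => l ∣ m) ⊆ m.primeFactors := by
      intro l hl
      rw [mem_filter, mem_pz] at hl
      exact Nat.mem_primeFactors.2 ⟨hl.1.2, hl.2, by omega⟩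
    apply Finset.prod_le_prod_of_subset_of_one_le hsub
    · intro l hl
      exact inv_nonneg.2 (ubs_fac (mem_pz.1 (mem_filter.1 hl).1).2).1.le
    · intro l hl _
      have := ubs_fac (Nat.prime_of_mem_primeFactors hl)
      exact (one_le_inv₀ this.1).2 this.2
  have hV : 0 ≤ Vz Y := (Pool.Agent.H373R2.T7.Vz_pos Y).le
  have h3 : 0 ≤ ∏ l ∈ (pz Y).filter (fun l => l ∈ P), (1 - 1 / (l : ℝ)) :=
    prod_nonneg fun l hl => (ubs_fac (mem_pz.1 (mem_filter.1 hl).1).2).1.le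
  have h4 : 0 ≤ ∏ l ∈ (pz Y).filter (fun l => l ∈ P ∧ (l : ℤ) ∣ (r : ℤ) + m * q), (1 - 1 / (l : ℝ))⁻¹ :=
    prod_nonneg fun l hl => inv_nonneg.2 (ubs_fac (mem_pz.1 (mem_filter.1 hl).1).2).1.le
  gcongr

theorem ubs_inv_le {l : ℕ} (hl : l.Prime) : (1 - 1 / (l : ℝ))⁻¹ ≤ Real.exp (2 / l) := by
  have h2 : (2 : ℝ) ≤ l := by exact_mod_cast hl.two_le
  have h0 : (0 : ℝ) < l := by linarith
  have ht : 1 / (l : ℝ) ≤ 1 / 2 := one_div_le_one_div_of_le (by norm_num) h2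
  have ht0 : 0 < 1 / (l : ℝ) := by positivity
  have e : (2 : ℝ) / l = 2 * (1 / l) := by ring
  rw [e]
  set t := 1 / (l : ℝ)
  have h1 : 0 < 1 - t := by linarith
  have h3 : (1 - t)⁻¹ ≤ 1 + 2 * t := by
    rw [inv_le_iff_one_le_mul₀ h1]
    nlinarith
  have h4 := Real.add_one_le_exp (2 * t)
  linarith

theorem ubs_C {N B : ℕ} (hB : 2 ≤ B) (hL : 8 ≤ Real.log N) {a : ℤ} (ha : a ≠ 0) (haN : |(a : ℝ)| ≤ N)
    (F : Finset ℕ) (hF : ∀ l ∈ F, l.Prime ∧ Real.log N ^ B ≤ l ∧ (l : ℤ) ∣ a) :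
    ∏ l ∈ F, (1 - 1 / (l : ℝ))⁻¹ ≤ 2 := by
  set L := Real.log N with hLd
  have hL0 : 0 < L := by linarith
  have hL1 : 1 ≤ L := by linarith
  have hdvd : ∏ l ∈ F, l ∣ a.natAbs := by
    apply Finset.prod_primes_dvd
    · intro l hl
      exact (hF l hl).1.prime
    · intro l hl
      exact Int.natCast_dvd.1 (hF l hl).2.2
  have hpow : 2 ^ F.card ≤ ∏ l ∈ F, l := by
    rw [← prod_const]
    exact prod_le_prod' fun l hl => (hF l hl).1.two_le
  have hle : 2 ^ F.card ≤ a.natAbs := hpow.trans (Nat.le_of_dvd (Int.natAbs_pos.2 ha) hdvd)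
  have hleN : (2 : ℝ) ^ F.card ≤ N := by
    have h1 : ((2 ^ F.card : ℕ) : ℝ) ≤ (a.natAbs : ℝ) := by exact_mod_cast hle
    rw [Nat.cast_natAbs, Int.cast_abs] at h1
    push_cast at h1
    exact h1.trans haN
  have hcard : (F.card : ℝ) ≤ 2 * L := by
    have h1 := Real.log_le_log (by positivity) hleN
    rw [Real.log_pow] at h1
    have h2 := Real.log_two_gt_d9
    have h3 : (0 : ℝ) ≤ F.card := Nat.cast_nonneg _
    nlinarith
  have hterm : ∀ l ∈ F, (1 - 1 / (l : ℝ))⁻¹ ≤ Real.exp (2 / L ^ 2) := by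
    intro l hl
    obtain ⟨h1, h2, -⟩ := hF l hl
    refine (ubs_inv_le h1).trans (Real.exp_le_exp.2 ?_)
    apply div_le_div_of_nonneg_left (by norm_num) (by positivity)
    exact (pow_le_pow_right₀ hL1 hB).trans h2
  calc ∏ l ∈ F, (1 - 1 / (l : ℝ))⁻¹ ≤ ∏ _l ∈ F, Real.exp (2 / L ^ 2) :=
        prod_le_prod (fun l hl => inv_nonneg.2 (ubs_fac (hF l hl).1).1.le) hterm
    _ = Real.exp (F.card * (2 / L ^ 2)) := by rw [prod_const, ← Real.exp_nat_mul]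
    _ ≤ Real.exp (1 / 2) := by
        apply Real.exp_le_exp.2
        calc (F.card : ℝ) * (2 / L ^ 2) ≤ 2 * L * (2 / L ^ 2) := by gcongr
          _ = 4 / L := by field_simp; norm_num
          _ ≤ 1 / 2 := by rw [div_le_div_iff₀ hL0 (by norm_num)]; linarith
    _ ≤ 2 := by
        have h1 := Real.exp_one_lt_d9
        have h2 : Real.exp (1 / 2) * Real.exp (1 / 2) = Real.exp 1 := by
          rw [← Real.exp_add]; norm_num
        have h3 := Real.exp_pos (1 / 2)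
        nlinarith

/-- the counting step -/
theorem ubs_count {N Y m : ℕ} {a : ℤ} {P : Finset ℕ} {r : ℕ} {q : ℤ}
    (hra : (r : ℤ) + m * q = a) (hr : (r : ℤ) = a % m)
    (S : Finset ℕ)
    (hS : ∀ p ∈ S, 1 ≤ p ∧ p ≤ N ∧ p.Prime ∧ (m : ℤ) ∣ a - p ∧ ∀ l ∈ P, ¬ (l : ℤ) ∣ (p : ℤ) - a) :
    ∃ T : Finset ℕ, (∀ n ∈ T, n ∈ Icc 1 (N / m + 1) ∧ ∀ l ∈ pz Y, ¬ ubsQ P m r q l n) ∧
      S.card ≤ Y + T.card := by
  classical
  have hmod : ∀ p ∈ S, m * (p / m) + r = p := by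
    intro p hp
    obtain ⟨-, -, -, h, -⟩ := hS p hp
    have h1 : a % m = (p : ℤ) % m :=
      Int.emod_eq_emod_iff_emod_sub_eq_zero.2 (Int.emod_eq_zero_of_dvd h)
    have h2 : r = p % m := by
      have : (r : ℤ) = ((p % m : ℕ) : ℤ) := by
        rw [hr, h1, Int.natCast_mod]
      exact_mod_cast this
    rw [h2]
    exact Nat.div_add_mod p m
  refine ⟨(S.filter (fun p => Y < p)).image (fun p => p / m + 1), ?_, ?_⟩
  · intro n hn
    rw [mem_image] at hn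
    obtain ⟨p, hp, rfl⟩ := hn
    rw [mem_filter] at hp
    obtain ⟨hpS, hpY⟩ := hp
    obtain ⟨h1, h2, h3, h4, h5⟩ := hS p hpS
    have hpe := hmod p hpS
    refine ⟨mem_Icc.2 ⟨Nat.le_add_left 1 _, Nat.succ_le_succ (Nat.div_le_div_right h2)⟩, ?_⟩
    intro l hl hQ
    rw [mem_pz] at hl
    have hpz : ((p : ℕ) : ZMod l) = m * ((p / m : ℕ) : ZMod l) + r := by
      conv_lhs => rw [← hpe]
      push_cast
      ring
    rcases hQ with hQ | ⟨hlP, hQ⟩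
    · have h6 : ((p : ℕ) : ZMod l) = 0 := by
        rw [hpz, ← hQ]
        push_cast
        ring
      rw [ZMod.natCast_eq_zero_iff] at h6
      rcases (Nat.dvd_prime h3).1 h6 with h7 | h7
      · exact hl.2.one_lt.ne' h7
      · omega
    · apply h5 l hlP
      rw [← ZMod.intCast_zmod_eq_zero_iff_dvd]
      push_cast
      rw [hpz, ← hra, ← hQ]
      push_cast
      ring
  · rw [card_image_of_injOn]
    · have h1 := card_filter_add_card_filter_not (s := S) (fun p => Y < p)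
      have h2 : (S.filter (fun p => ¬ Y < p)).card ≤ Y := by
        calc _ ≤ (Icc 1 Y).card := by
              apply card_le_card
              intro p hp
              rw [mem_filter] at hp
              rw [mem_Icc]
              exact ⟨(hS p hp.1).1, by omega⟩
          _ = Y := by rw [Nat.card_Icc]; omega
      omega
    · intro p hp p' hp' h
      rw [mem_coe, mem_filter] at hp hp'
      have h1 := hmod p hp.1
      have h2 := hmod p' hp'.1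
      simp only [Nat.add_right_cancel_iff] at h
      rw [← h1, ← h2, h]

theorem ubs_mertens {C₂ : ℝ} (hM : ∀ y : ℝ, 2 ≤ y →
    Real.log (Real.log y) - C₂ ≤ ∑ p ∈ (Finset.Icc 1 ⌊y⌋₊).filter Nat.Prime, (1 : ℝ) / p) {y : ℝ} (hy : 2 ≤ y) :
    Vz ⌊y⌋₊ ≤ Real.exp C₂ / Real.log y := by
  have hly : 0 < Real.log y := Real.log_pos (by linarith)
  calc Vz ⌊y⌋₊ ≤ ∏ p ∈ pz ⌊y⌋₊, Real.exp (-(1 / (p : ℝ))) := by
        apply prod_le_prod
        · intro p hp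
          exact (ubs_fac (mem_pz.1 hp).2).1.le
        · intro p _
          have := Real.add_one_le_exp (-(1 / (p : ℝ)))
          linarith
    _ = Real.exp (-∑ p ∈ pz ⌊y⌋₊, 1 / (p : ℝ)) := by rw [← Real.exp_sum, sum_neg_distrib]
    _ ≤ Real.exp (C₂ - Real.log (Real.log y)) := by
        apply Real.exp_le_exp.2
        have := hM y hy
        have e : ∑ p ∈ pz ⌊y⌋₊, 1 / (p : ℝ) = ∑ p ∈ (Finset.Icc 1 ⌊y⌋₊).filter Nat.Prime, (1 : ℝ) / p := rfl
        rw [e]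
        linarith
    _ = _ := by rw [Real.exp_sub, Real.exp_log hly]

theorem ubs_ev {c κ : ℝ} (hc : 0 < c) (hκ : 0 < κ) (x : ℕ) : ∃ N₀ : ℕ, ∀ N : ℕ, N₀ ≤ N → 2 ≤ N ∧ 8 ≤ Real.log N ∧
    1 ≤ Real.log (Real.log N) ∧ 2 ≤ (N : ℝ) ^ κ ∧ (x : ℝ) ≤ (N : ℝ) ^ κ ∧
    2 * ((N : ℝ) ^ (1 / 2 : ℝ) * (N : ℝ) ^ (1 / 20 : ℝ)) * Real.log N ^ 2 ≤ c * N := by
  have t0 : Filter.Tendsto (fun N : ℕ => (N : ℝ)) Filter.atTop Filter.atTop := tendsto_natCast_atTop_atTop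
  have t1 := Real.tendsto_log_atTop.comp t0
  have t2 := Real.tendsto_log_atTop.comp t1
  have t3 := (tendsto_rpow_atTop hκ).comp t0
  have t4 := (tendsto_rpow_atTop (show (0 : ℝ) < 1 / 4 by norm_num)).comp t0
  have h := ((((Filter.eventually_ge_atTop 2).and (t1.eventually_ge_atTop 8)).and
    ((t2.eventually_ge_atTop 1).and (t3.eventually_ge_atTop 2))).and
    ((t3.eventually_ge_atTop (x : ℝ)).and (t4.eventually_ge_atTop (200 / c))))
  obtain ⟨N₀, hN₀⟩ := Filter.eventually_atTop.1 h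
  refine ⟨N₀, fun N hN => ?_⟩
  obtain ⟨⟨⟨a1, a2⟩, a3, a4⟩, a5, a6⟩ := hN₀ N hN
  simp only [Function.comp_apply] at a2 a3 a4 a5 a6
  refine ⟨a1, a2, a3, a4, a5, ?_⟩
  have hN0 : (0 : ℝ) < N := by
    have : (2 : ℝ) ≤ N := by exact_mod_cast a1
    linarith
  have b1 : Real.log N ≤ (N : ℝ) ^ (1 / 10 : ℝ) / (1 / 10) := Real.log_le_rpow_div hN0.le (by norm_num)
  have b2 : Real.log N ^ 2 ≤ 100 * (N : ℝ) ^ (1 / 5 : ℝ) := by
    have e : (N : ℝ) ^ (1 / 5 : ℝ) = ((N : ℝ) ^ (1 / 10 : ℝ)) ^ 2 := by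
      rw [← Real.rpow_natCast, ← Real.rpow_mul hN0.le]
      norm_num
    rw [e]
    calc Real.log N ^ 2 ≤ ((N : ℝ) ^ (1 / 10 : ℝ) / (1 / 10)) ^ 2 :=
          pow_le_pow_left₀ (by linarith) b1 2
      _ = _ := by ring
  rw [div_le_iff₀ hc] at a6
  have e1 : (N : ℝ) = (N : ℝ) ^ (1 / 4 : ℝ) * ((N : ℝ) ^ (1 / 2 : ℝ) * (N : ℝ) ^ (1 / 20 : ℝ) * (N : ℝ) ^ (1 / 5 : ℝ)) := by
    rw [← Real.rpow_add hN0, ← Real.rpow_add hN0, ← Real.rpow_add hN0]
    norm_num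
  have h0 : 0 ≤ (N : ℝ) ^ (1 / 2 : ℝ) * (N : ℝ) ^ (1 / 20 : ℝ) := by positivity
  have h1 : 0 ≤ (N : ℝ) ^ (1 / 5 : ℝ) := by positivity
  calc 2 * ((N : ℝ) ^ (1 / 2 : ℝ) * (N : ℝ) ^ (1 / 20 : ℝ)) * Real.log N ^ 2
      ≤ 2 * ((N : ℝ) ^ (1 / 2 : ℝ) * (N : ℝ) ^ (1 / 20 : ℝ)) * (100 * (N : ℝ) ^ (1 / 5 : ℝ)) := by gcongr
    _ = 200 * ((N : ℝ) ^ (1 / 2 : ℝ) * (N : ℝ) ^ (1 / 20 : ℝ) * (N : ℝ) ^ (1 / 5 : ℝ)) := by ring
    _ ≤ ((N : ℝ) ^ (1 / 4 : ℝ) * c) * ((N : ℝ) ^ (1 / 2 : ℝ) * (N : ℝ) ^ (1 / 20 : ℝ) * (N : ℝ) ^ (1 / 5 : ℝ)) := by gcongr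
    _ = c * ((N : ℝ) ^ (1 / 4 : ℝ) * ((N : ℝ) ^ (1 / 2 : ℝ) * (N : ℝ) ^ (1 / 20 : ℝ) * (N : ℝ) ^ (1 / 5 : ℝ))) := by ring
    _ = c * N := by rw [← e1]

set_option maxHeartbeats 1000000 in
theorem UBS (hVLB : St_VLB) : St_UBS := by
  classical
  intro B hB ε₁ hε hε1
  obtain ⟨c₂, hc₂, hV⟩ := hVLB
  obtain ⟨K, x0, hK, hS⟩ := sys_fund 2 (by norm_num) 1 one_pos
  obtain ⟨C₂, hC₂, hM⟩ := Pool.Agent.Helper256.KM.mertens_lower
  have hK0 : (1 : ℝ) ≤ K := by exact_mod_cast hK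
  set κ : ℝ := 1 / (2 * K) with hκ
  have hκ0 : 0 < κ := by positivity
  have hκ1 : κ ≤ 1 / 2 := by
    rw [hκ]
    apply one_div_le_one_div_of_le (by norm_num)
    linarith
  have hκK : κ * K = 1 / 2 := by
    rw [hκ]
    field_simp
  set ε' := min ε₁ κ with hε'
  have hε'0 : 0 < ε' := lt_min hε hκ0
  obtain ⟨n1, h1⟩ := hV B (by omega) ε₁ hε hε1
  obtain ⟨n2, h2⟩ := hV B (by omega) ε' hε'0 ((min_le_left _ _).trans hε1)
  obtain ⟨n3, h3⟩ := ubs_ev hc₂ hκ0 (x0 + 1)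
  set C0 : ℝ := 16 * K * Real.exp C₂ with hC0
  refine ⟨C0 * (ε₁ / (ε' * c₂ ^ 2)) + 1, max n1 (max n2 n3), by positivity, ?_⟩
  intro N hN a ha haN m hm hmN hgcd
  obtain ⟨g1, g2⟩ := h1 N ((le_max_left _ _).trans hN)
  obtain ⟨g3, g4⟩ := h2 N (((le_max_left _ _).trans (le_max_right _ _)).trans hN)
  obtain ⟨a1, a2, a3, a4, a5, a6⟩ := h3 N (((le_max_right _ _).trans (le_max_right _ _)).trans hN)
  have hN2 : (2 : ℝ) ≤ N := by exact_mod_cast a1
  have hN0 : (0 : ℝ) < N := by linarith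
  have hN1 : (1 : ℝ) ≤ N := by linarith
  set L := Real.log N with hL
  have hL0 : 0 < L := by linarith
  set LL := Real.log L with hLL
  set P := P1 N B ε₁ with hP
  set V := VV P with hVd
  have hBr : (2 : ℝ) ≤ B := by exact_mod_cast hB
  have hVlow : c₂ / L ≤ V := by
    refine le_trans ?_ g1
    have h5 : 1 / L ≤ B * LL / (ε₁ * L) := by
      rw [div_le_div_iff₀ hL0 (by positivity)]
      have h6 : ε₁ * L ≤ 1 * L := by gcongr
      have h7 : 1 * L ≤ B * LL * L := by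
        have : (1 : ℝ) ≤ B * LL := by nlinarith
        gcongr
      linarith
    calc c₂ / L = c₂ * (1 / L) := by ring
      _ ≤ _ := by gcongr
  have hV0 : 0 < V := lt_of_lt_of_le (by positivity) hVlow
  have hm0 : (0 : ℝ) < m := by exact_mod_cast hm
  have hφ0 : (0 : ℝ) < Nat.totient m := by exact_mod_cast Nat.totient_pos.2 (by omega)
  have hφm : (Nat.totient m : ℝ) ≤ m := by exact_mod_cast Nat.totient_le m
  have hRHS : 0 ≤ (C0 * (ε₁ / (ε' * c₂ ^ 2)) + 1) * (N / (Nat.totient m * L)) * V := by positivity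
  by_cases hPm : ∃ l ∈ P, l ∣ m
  · obtain ⟨l, hl, hlm⟩ := hPm
    have : ((Icc 1 N).filter (fun p : ℕ => p.Prime ∧ (m : ℤ) ∣ a - p ∧ xx P (p - a) = 1)) = ∅ := by
      rw [filter_eq_empty_iff]
      rintro p _ ⟨_, h5, h6⟩
      unfold xx at h6
      split_ifs at h6 with h7
      · apply h7 l hl
        have h8 : (l : ℤ) ∣ a - p := (Int.natCast_dvd_natCast.2 hlm).trans h5
        have h9 : (p : ℤ) - a = -(a - p) := by ring
        rw [h9]
        exact (dvd_neg).2 h8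
      · norm_num at h6
    rw [this]
    simpa using hRHS
  push Not at hPm
  have hmZ : (0 : ℤ) < m := by exact_mod_cast hm
  set r : ℕ := (a % m).toNat with hr
  have hr' : (r : ℤ) = a % m := Int.toNat_of_nonneg (Int.emod_nonneg _ hmZ.ne')
  set q : ℤ := a / m with hq
  have hra : (r : ℤ) + m * q = a := by rw [hr']; exact Int.emod_add_mul_ediv a m
  have hcop : Nat.Coprime r m := by
    have h5 : ((Nat.gcd r m : ℕ) : ℤ) ∣ a := by
      rw [← hra]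
      exact dvd_add (Int.natCast_dvd_natCast.2 (Nat.gcd_dvd_left r m))
        ((Int.natCast_dvd_natCast.2 (Nat.gcd_dvd_right r m)).mul_right q)
    have h6 : ((Nat.gcd r m : ℕ) : ℤ) ∣ m := Int.natCast_dvd_natCast.2 (Nat.gcd_dvd_right r m)
    have h7 := Int.dvd_coe_gcd h5 h6
    rw [hgcd] at h7
    exact Nat.dvd_one.1 (by exact_mod_cast h7)
  set Yr : ℝ := (N : ℝ) ^ κ with hYr
  set Y : ℕ := ⌊Yr⌋₊ with hY
  have hYr0 : 0 ≤ Yr := by positivity
  have hYYr : (Y : ℝ) ≤ Yr := Nat.floor_le hYr0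
  have hYrN : Yr ≤ (N : ℝ) ^ (1 / 2 : ℝ) := Real.rpow_le_rpow_of_exponent_le hN1 hκ1
  have hx0 : x0 ≤ Y := by
    have : x0 + 1 ≤ Y := Nat.le_floor (by push_cast at a5 ⊢; exact a5)
    omega
  have hYK : Y ^ K ≤ N := by
    have h5 : (Y : ℝ) ^ K ≤ N := by
      calc (Y : ℝ) ^ K ≤ Yr ^ K := pow_le_pow_left₀ (Nat.cast_nonneg _) hYYr K
        _ = (N : ℝ) ^ (κ * K) := by rw [hYr, Real.rpow_mul_natCast hN0.le]
        _ ≤ (N : ℝ) ^ (1 : ℝ) := by
            rw [hκK]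
            exact Real.rpow_le_rpow_of_exponent_le hN1 (by norm_num)
        _ = N := Real.rpow_one _
    exact_mod_cast h5
  obtain ⟨T, hT1, hT2⟩ := ubs_count (N := N) (Y := Y) hra hr'
    ((Icc 1 N).filter (fun p : ℕ => p.Prime ∧ (m : ℤ) ∣ a - p ∧ xx P (p - a) = 1)) (by
      intro p hp
      rw [mem_filter, mem_Icc] at hp
      obtain ⟨⟨h5, h6⟩, h7, h8, h9⟩ := hp
      refine ⟨h5, h6, h7, h8, ?_⟩
      unfold xx at h9
      split_ifs at h9 with h10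
      · exact h10
      · norm_num at h9)
  set X : ℕ := N / m + 1 with hX
  have key := hS N Y hx0 hYK (ubsQ P m r q) (ubs_perB hcop hPm) X
  set Rr : ℝ := ∏ p ∈ pz Y, (1 - (nuB (ubsQ P m r q) p : ℝ) / p) with hR
  have hTc : (T.card : ℝ) ≤ 2 * (X * Rr) + √(N : ℝ) := by
    have h5 : (T.card : ℝ) ≤ ((((Icc 1 X).filter (fun n : ℕ => ∀ p ∈ pz Y, ¬ ubsQ P m r q p n)).card : ℕ) : ℝ) := by
      exact_mod_cast card_le_card fun n hn => mem_filter.2 (hT1 n hn)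
    have h6 := (abs_le.1 key).2
    linarith
  have hR1 : Rr ≤ (2 * K * Real.exp C₂ / L) * (m / Nat.totient m) * VV (P1 N B ε') * 2 := by
    refine (ubs_prod hm hPm Y).trans ?_
    have b1 : Vz Y ≤ 2 * K * Real.exp C₂ / L := by
      refine (ubs_mertens hM a4).trans (le_of_eq ?_)
      rw [Real.log_rpow hN0, ← hL, hκ]
      field_simp
    have b2 : ∏ l ∈ (pz Y).filter (fun l => l ∈ P), (1 - 1 / (l : ℝ)) ≤ VV (P1 N B ε') := by
      unfold VV
      apply ubs_prod_mono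
      · intro l hl
        rw [P1, mem_filter] at hl
        obtain ⟨h5, h6, h7, h8⟩ := hl
        rw [mem_filter, mem_pz]
        have hl0 : (0 : ℝ) < l := by exact_mod_cast h6.pos
        refine ⟨⟨?_, h6⟩, ?_⟩
        · apply Nat.le_floor
          have h9 : tt N l < κ := lt_of_lt_of_le h8 (min_le_right _ _)
          unfold tt at h9
          rw [div_lt_iff₀ hL0] at h9
          rw [hYr, ← Real.log_le_log_iff hl0 (by positivity), Real.log_rpow hN0]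
          exact h9.le
        · rw [hP, P1, mem_filter]
          exact ⟨h5, h6, h7, lt_of_lt_of_le h8 (min_le_left _ _)⟩
      · intro l hl
        exact (ubs_fac (mem_pz.1 (mem_filter.1 hl).1).2).1.le
      · intro l hl
        exact (ubs_fac (mem_pz.1 (mem_filter.1 hl).1).2).2
    have b3 : ∏ l ∈ (pz Y).filter (fun l => l ∈ P ∧ (l : ℤ) ∣ (r : ℤ) + m * q), (1 - 1 / (l : ℝ))⁻¹ ≤ 2 := by
      apply ubs_C hB a2 ha haN
      intro l hl
      rw [mem_filter, mem_pz] at hl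
      obtain ⟨⟨_, h6⟩, h7, h8⟩ := hl
      rw [hra] at h8
      refine ⟨h6, ?_, h8⟩
      rw [hP, P1, mem_filter] at h7
      exact h7.2.2.1
    have c1 : 0 ≤ Vz Y := (Pool.Agent.H373R2.T7.Vz_pos Y).le
    have c2 : 0 ≤ ∏ l ∈ (pz Y).filter (fun l => l ∈ P), (1 - 1 / (l : ℝ)) :=
      prod_nonneg fun l hl => (ubs_fac (mem_pz.1 (mem_filter.1 hl).1).2).1.le
    have c3 : 0 ≤ ∏ l ∈ (pz Y).filter (fun l => l ∈ P ∧ (l : ℤ) ∣ (r : ℤ) + m * q), (1 - 1 / (l : ℝ))⁻¹ :=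
      prod_nonneg fun l hl => inv_nonneg.2 (ubs_fac (mem_pz.1 (mem_filter.1 hl).1).2).1.le
    have c4 : 0 ≤ VV (P1 N B ε') := c2.trans b2
    gcongr
  have hXle : (X : ℝ) ≤ 2 * (N / m) := by
    have h5 : ((N / m : ℕ) : ℝ) ≤ N / m := Nat.cast_div_le
    have h6 : (m : ℝ) ≤ N := by
      refine hmN.trans ?_
      calc (N : ℝ) ^ (1 / 20 : ℝ) ≤ (N : ℝ) ^ (1 : ℝ) := Real.rpow_le_rpow_of_exponent_le hN1 (by norm_num)
        _ = N := Real.rpow_one _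
    have h7 : 1 ≤ (N : ℝ) / m := by rw [one_le_div hm0]; exact h6
    rw [hX]
    push_cast
    linarith
  have hVV0 : 0 ≤ VV (P1 N B ε') := le_trans (by positivity) g3
  have hR0 : 0 ≤ Rr := by
    rw [hR]
    apply prod_nonneg
    intro l hl
    have hl0 : (0 : ℝ) < l := by exact_mod_cast (mem_pz.1 hl).2.pos
    have : (nuB (ubsQ P m r q) l : ℝ) / l ≤ 1 := by
      rw [div_le_one hl0]
      exact_mod_cast Pool.Agent.H373R2.T7.nuB_le _ _
    linarith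
  have hVV : VV (P1 N B ε') ≤ ε₁ / (ε' * c₂ ^ 2) * V := by
    refine g4.trans ?_
    calc 1 / c₂ * (B * LL / (ε' * L)) = ε₁ / (ε' * c₂ ^ 2) * (c₂ * (B * LL / (ε₁ * L))) := by
          field_simp
      _ ≤ _ := by gcongr
  have hmain : 2 * (X * Rr) ≤ C0 * (ε₁ / (ε' * c₂ ^ 2)) * (N / (Nat.totient m * L)) * V := by
    calc 2 * (X * Rr) ≤ 2 * ((2 * (N / m)) * ((2 * K * Real.exp C₂ / L) * (m / Nat.totient m) * VV (P1 N B ε') * 2)) := by
          gcongr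
      _ = C0 * (N / (Nat.totient m * L)) * VV (P1 N B ε') := by
          rw [hC0]
          field_simp
          ring
      _ ≤ C0 * (N / (Nat.totient m * L)) * (ε₁ / (ε' * c₂ ^ 2) * V) := by gcongr
      _ = _ := by ring
  have hsq : √(N : ℝ) = (N : ℝ) ^ (1 / 2 : ℝ) := Real.sqrt_eq_rpow _
  have herr : (Y : ℝ) + √(N : ℝ) ≤ (N / (Nat.totient m * L)) * V := by
    have h5 : (Y : ℝ) + √(N : ℝ) ≤ 2 * (N : ℝ) ^ (1 / 2 : ℝ) := by
      rw [hsq]
      linarith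
    refine h5.trans ?_
    have h6 : 2 * (N : ℝ) ^ (1 / 2 : ℝ) ≤ (N / (Nat.totient m * L)) * (c₂ / L) := by
      have e : (N / (Nat.totient m * L)) * (c₂ / L) = c₂ * N / (Nat.totient m * L ^ 2) := by
        field_simp
      rw [e, le_div_iff₀ (by positivity)]
      calc 2 * (N : ℝ) ^ (1 / 2 : ℝ) * (Nat.totient m * L ^ 2)
          ≤ 2 * (N : ℝ) ^ (1 / 2 : ℝ) * ((N : ℝ) ^ (1 / 20 : ℝ) * L ^ 2) := by
            gcongr
            exact hφm.trans hmN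
        _ = 2 * ((N : ℝ) ^ (1 / 2 : ℝ) * (N : ℝ) ^ (1 / 20 : ℝ)) * L ^ 2 := by ring
        _ ≤ _ := a6
    refine h6.trans ?_
    gcongr
  have hfin : ((((Icc 1 N).filter (fun p : ℕ => p.Prime ∧ (m : ℤ) ∣ a - p ∧ xx P (p - a) = 1)).card : ℕ) : ℝ) ≤
      Y + T.card := by exact_mod_cast hT2
  calc _ ≤ (Y : ℝ) + T.card := hfin
    _ ≤ 2 * (X * Rr) + (Y + √(N : ℝ)) := by linarith
    _ ≤ C0 * (ε₁ / (ε' * c₂ ^ 2)) * (N / (Nat.totient m * L)) * V + (N / (Nat.totient m * L)) * V := by linarith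
    _ = _ := by ring

end Pool.Agent.U502.PL
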